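import Pool.Agent.Lib.MP_abd978_an.Interfaces

/-!
Module CACC: the Caccioppoli inequality.
-/

set_option autoImplicit false

open MeasureTheory Metric Set Filter Topology ContDiff
open scoped Gradient RealInnerProductSpace

namespace Pool.Agent.Lib.MP_abd978_an.H1

/-- pointwise Young inequality -/
theorem young {p α β : ℝ} (hp : 1 < p) (hα : 0 < α) (hβ : 0 < β) {m : ℕ} (hm1 : 1 ≤ m)
    (hm : p ≤ m) {e y T g θ : ℝ} (he0 : 0 ≤ e) (he1 : e ≤ 1) (hy : 0 ≤ y) (hT : 0 ≤ T)
    (hg : 0 ≤ g) (hθ : 0 < θ) :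
    (m * β) * (e ^ (m - 1) * (y ^ (p - 1) * (T * g))) ≤
      α / 2 * (e ^ m * (θ * y ^ p)) +
        α / 2 * ((2 * (m * β) / α) ^ p * (T ^ p * θ ^ (1 - p) * g ^ p)) := by
  have hm0 : (0:ℝ) < m := by
    have : (1:ℝ) ≤ m := by exact_mod_cast hm1
    linarith
  set l := 2 * (m * β) / α with hl
  have hl0 : 0 < l := by positivity
  have hml : m * β = α / 2 * l := by
    rw [hl]
    field_simp
  have hyp : 0 ≤ y ^ p := Real.rpow_nonneg hy _
  have hyp1 : 0 ≤ y ^ (p - 1) := Real.rpow_nonneg hy _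
  have hn1 : 0 ≤ α / 2 * (e ^ m * (θ * y ^ p)) := by positivity
  have hn2 : 0 ≤ α / 2 * (l ^ p * (T ^ p * θ ^ (1 - p) * g ^ p)) := by positivity
  have hee : e ^ m = e ^ (m - 1) * e := by
    rw [← pow_succ, Nat.sub_add_cancel hm1]
  rcases le_or_gt (l * (T * g)) (e * θ * y) with h | h
  · have h1 : (m * β) * (e ^ (m - 1) * (y ^ (p - 1) * (T * g))) ≤
        α / 2 * (e ^ m * (θ * y ^ p)) := by
      have h2 : y ^ p = y ^ (p - 1) * y := by
        rcases hy.eq_or_lt with h0 | h0
        · rw [← h0, Real.zero_rpow (by linarith), mul_zero]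
        · rw [← Real.rpow_add_one h0.ne']
          congr 1
          ring
      calc (m * β) * (e ^ (m - 1) * (y ^ (p - 1) * (T * g)))
          = α / 2 * (e ^ (m - 1) * y ^ (p - 1)) * (l * (T * g)) := by rw [hml]; ring
        _ ≤ α / 2 * (e ^ (m - 1) * y ^ (p - 1)) * (e * θ * y) := by gcongr
        _ = α / 2 * (e ^ m * (θ * y ^ p)) := by rw [h2, hee]; ring
    linarith
  · have h1 : (m * β) * (e ^ (m - 1) * (y ^ (p - 1) * (T * g))) ≤
        α / 2 * (l ^ p * (T ^ p * θ ^ (1 - p) * g ^ p)) := by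
      have h2 : e * y ≤ l * (T * g) / θ := by
        rw [le_div_iff₀ hθ]
        calc e * y * θ = e * θ * y := by ring
          _ ≤ _ := h.le
      have h3 : e ^ (m - 1) ≤ e ^ (p - 1) := by
        rw [← Real.rpow_natCast]
        apply Real.rpow_le_rpow_of_exponent_ge' he0 he1 (by linarith)
        push_cast [Nat.cast_sub hm1]
        linarith
      have h4 : e ^ (m - 1) * y ^ (p - 1) ≤ (l * (T * g) / θ) ^ (p - 1) := by
        calc e ^ (m - 1) * y ^ (p - 1) ≤ e ^ (p - 1) * y ^ (p - 1) := by gcongr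
          _ = (e * y) ^ (p - 1) := (Real.mul_rpow he0 hy).symm
          _ ≤ _ := Real.rpow_le_rpow (by positivity) h2 (by linarith)
      have hTg : 0 ≤ T * g := by positivity
      have h5 : (l * (T * g) / θ) ^ (p - 1) * (l * (T * g)) =
          l ^ p * (T ^ p * θ ^ (1 - p) * g ^ p) := by
        rcases hTg.eq_or_lt with h0 | h0
        · rw [← h0]
          have : T ^ p * θ ^ (1 - p) * g ^ p = 0 := by
            rcases mul_eq_zero.1 h0.symm with h6 | h6
            · rw [h6, Real.zero_rpow (by linarith)]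
              ring
            · rw [h6, Real.zero_rpow (by linarith)]
              ring
          rw [this]
          ring
        · have hb : 0 < l * (T * g) := by positivity
          rw [Real.div_rpow hb.le hθ.le, div_mul_eq_mul_div, ← Real.rpow_add_one hb.ne',
            show p - 1 + 1 = p by ring, Real.mul_rpow hl0.le hTg, Real.mul_rpow hT hg,
            show 1 - p = -(p - 1) by ring, Real.rpow_neg hθ.le]
          field_simp
      calc (m * β) * (e ^ (m - 1) * (y ^ (p - 1) * (T * g)))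
          = α / 2 * ((e ^ (m - 1) * y ^ (p - 1)) * (l * (T * g))) := by rw [hml]; ring
        _ ≤ α / 2 * ((l * (T * g) / θ) ^ (p - 1) * (l * (T * g))) := by gcongr
        _ = _ := by rw [h5]
    linarith

/-- compositions with functions continuous on `[c, d]` -/
theorem comp_cont {n : ℕ} {ν : Measure (E n)} {u : E n → ℝ} {c d : ℝ} {F : ℝ → ℝ}
    (hF : ContinuousOn F (Icc c d)) (hu : AEStronglyMeasurable u ν) (hm : ∀ x, u x ∈ Icc c d) :
    AEStronglyMeasurable (fun x => F (u x)) ν ∧ ∃ K, 0 ≤ K ∧ ∀ x, |F (u x)| ≤ K := by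
  have hcd : c ≤ d := (hm 0).1.trans (hm 0).2
  constructor
  · have h1 : Continuous (IccExtend hcd ((Icc c d).restrict F)) :=
      (continuousOn_iff_continuous_restrict.1 hF).Icc_extend'
    have h2 : (fun x => F (u x)) = fun x => IccExtend hcd ((Icc c d).restrict F) (u x) := by
      funext x
      rw [IccExtend_of_mem hcd _ (hm x)]
      rfl
    rw [h2]
    exact h1.comp_aestronglyMeasurable hu
  · obtain ⟨K, hK⟩ := (isCompact_Icc : IsCompact (Icc c d)).exists_bound_of_continuousOn hF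
    exact ⟨max K 0, le_max_right _ _, fun x => (hK _ (hm x)).trans (le_max_left _ _)⟩

theorem cont_deriv {Θ : ℝ → ℝ} {c d : ℝ} (h : SmoothNear Θ c d) :
    ContinuousOn Θ (Icc c d) ∧ ContinuousOn (deriv Θ) (Icc c d) := by
  obtain ⟨O, hO, hcd, hΘ⟩ := h
  exact ⟨hΘ.continuousOn.mono hcd,
    (hΘ.continuousOn_deriv_of_isOpen hO (by simp)).mono hcd⟩

/-- integrability of functions supported in `D` -/
theorem int_of_on {n : ℕ} {μ : Measure (E n)} {D : Set (E n)} {f : E n → ℝ}
    (h : Integrable f (μ.restrict D)) (h0 : ∀ x, x ∉ D → f x = 0) : Integrable f μ := by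
  have h1 : Function.support f ⊆ D := fun x hx => by
    by_contra hxD
    exact hx (h0 x hxD)
  exact (integrableOn_iff_integrable_of_support_subset h1).1 h

theorem Test.pow {n : ℕ} {D : Set (E n)} {η : E n → ℝ} (h : Test D η) {m : ℕ} (hm : 1 ≤ m) :
    Test D fun x => η x ^ m := by
  have h0 : (fun t : ℝ => t ^ m) 0 = 0 := by
    simp only
    exact zero_pow (by omega)
  refine ⟨h.1.pow m, h.2.1.comp_left (g := fun t : ℝ => t ^ m) h0, ?_⟩
  exact (tsupport_comp_subset (g := fun t : ℝ => t ^ m) h0 η).trans h.2.2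

theorem grad_pow {n : ℕ} {D : Set (E n)} {η : E n → ℝ} (h : Test D η) (m : ℕ) (x : E n) :
    ∇ (fun x => η x ^ m) x = (m * η x ^ (m - 1)) • ∇ η x := by
  have h1 := grad_comp (θ := fun t : ℝ => t ^ m) (h.1.differentiable (by simp) x)
    (differentiableAt_pow m)
  rw [h1]
  congr 1
  simp

theorem cacc (hW : WeakStatement) (hI : IntgStatement) : CaccStatement := by
  intro n p μ a α β hop
  have hp := hop.hp
  have hα := hop.hα
  have hβ : 0 < β := hα.trans_le hop.hαβ
  haveI := hop.lf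
  set m := ⌈p⌉₊ with hm
  have hmp : p ≤ m := Nat.le_ceil p
  have hm1 : 1 ≤ m := Nat.one_le_iff_ne_zero.2 (by
    intro h0
    rw [h0] at hmp
    simp at hmp
    linarith)
  have hmr : (0:ℝ) < m := by
    have : (1:ℝ) ≤ m := by exact_mod_cast hm1
    linarith
  set l := 2 * (m * β) / α with hl
  have hl0 : 0 < l := by positivity
  refine ⟨l ^ p, by positivity, ?_⟩
  intro D u v c d Θ η hs hΘ hΘ' hη hη1
  have hpow := Test.pow hη hm1
  have hDm : MeasurableSet D := hs.isOpen.measurableSet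
  have hw := hW n p μ a α β D u v c d Θ _ hop hs hΘ hpow
  obtain ⟨hc1, hc2⟩ := cont_deriv hΘ
  have hum : AEStronglyMeasurable u (μ.restrict D) := hs.sob.1.1
  have hv : MemLp v (ENNReal.ofReal p) (μ.restrict D) := hs.sob.2.1
  have hη0 : ∀ x, x ∉ D → η x = 0 := fun x hx =>
    image_eq_zero_of_notMem_tsupport fun h => hx (hη.2.2 h)
  have hgη0 : ∀ x, x ∉ D → ∇ η x = 0 := fun x hx =>
    grad_eq_zero_of_notMem fun h => hx (hη.2.2 h)
  have hgp0 : ∀ x, x ∉ D → ∇ (fun x => η x ^ m) x = 0 := fun x hx =>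
    grad_eq_zero_of_notMem fun h => hx (hpow.2.2 h)
  obtain ⟨m1, K1, hK1, b1⟩ := comp_cont hc1 hum hs.mem
  obtain ⟨m2, K2, hK2, b2⟩ := comp_cont hc2 hum hs.mem
  have hηc : Continuous fun x => η x ^ m := hη.1.continuous.pow m
  have hηb : ∀ x, |η x ^ m| ≤ 1 := fun x => by
    rw [abs_of_nonneg (pow_nonneg (hη1 x).1 m)]
    exact pow_le_one₀ (hη1 x).1 (hη1 x).2
  -- integrability of the two terms
  have i1 : Integrable (fun x => Θ (u x) * ⟪a x (v x), ∇ (fun x => η x ^ m) x⟫) μ := by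
    apply int_of_on (D := D)
    · have h1 := (hI n p μ (μ.restrict D) a α β v (fun x => ∇ (fun x => η x ^ m) x) hop hv
        ((hpow.memLp_grad (μ := μ) _).restrict D)).1
      exact h1.bdd_mul m1 (Eventually.of_forall b1)
    · intro x hx
      rw [hgp0 x hx, inner_zero_right, mul_zero]
  have i2 : Integrable (fun x => η x ^ m * deriv Θ (u x) * ⟪a x (v x), v x⟫) μ := by
    apply int_of_on (D := D)
    · have h1 := (hI n p μ (μ.restrict D) a α β v v hop hv hv).1
      refine h1.bdd_mul (hηc.aestronglyMeasurable.mul m2) (c := K2)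
        (Eventually.of_forall fun x => ?_)
      rw [norm_mul]
      calc ‖η x ^ m‖ * ‖deriv Θ (u x)‖ ≤ 1 * K2 :=
            mul_le_mul (hηb x) (b2 x) (norm_nonneg _) zero_le_one
        _ = K2 := one_mul _
    · intro x hx
      rw [hη0 x hx, zero_pow (by omega)]
      ring
  have i3 : Integrable (fun x => η x ^ m * (deriv Θ (u x) * ‖v x‖ ^ p)) μ := by
    apply int_of_on (D := D)
    · have h1 := hv.integrable_norm_rpow (by
        intro h0
        have := one_le_ofReal hp
        rw [h0] at this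
        simp at this) ENNReal.ofReal_ne_top
      rw [ENNReal.toReal_ofReal (by linarith)] at h1
      have h2 : Integrable (fun x => (η x ^ m * deriv Θ (u x)) * ‖v x‖ ^ p) (μ.restrict D) := by
        refine h1.bdd_mul (hηc.aestronglyMeasurable.mul m2) (c := K2)
          (Eventually.of_forall fun x => ?_)
        rw [norm_mul]
        calc ‖η x ^ m‖ * ‖deriv Θ (u x)‖ ≤ 1 * K2 :=
              mul_le_mul (hηb x) (b2 x) (norm_nonneg _) zero_le_one
          _ = K2 := one_mul _
      refine h2.congr (Eventually.of_forall fun x => ?_)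
      show η x ^ m * deriv Θ (u x) * ‖v x‖ ^ p = η x ^ m * (deriv Θ (u x) * ‖v x‖ ^ p)
      ring
    · intro x hx
      rw [hη0 x hx, zero_pow (by omega)]
      ring
  have i4 : Integrable (fun x => |Θ (u x)| ^ p * deriv Θ (u x) ^ (1 - p) * ‖∇ η x‖ ^ p) μ := by
    apply int_of_on (D := D)
    · have hF : ContinuousOn (fun t => |Θ t| ^ p * deriv Θ t ^ (1 - p)) (Icc c d) := by
        apply ContinuousOn.mul
        · exact hc1.abs.rpow_const fun t _ => Or.inr (by linarith)
        · exact hc2.rpow_const fun t ht => Or.inl (hΘ' t ht).ne'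
      obtain ⟨m3, K3, hK3, b3⟩ := comp_cont hF hum hs.mem
      have h1 : Integrable (fun x => ‖∇ η x‖ ^ p) (μ.restrict D) := by
        have h2 := (hη.memLp_grad (μ := μ) (ENNReal.ofReal p)).integrable_norm_rpow (by
          intro h0
          have := one_le_ofReal hp
          rw [h0] at this
          simp at this) ENNReal.ofReal_ne_top
        rw [ENNReal.toReal_ofReal (by linarith)] at h2
        exact h2.restrict
      exact h1.bdd_mul m3 (Eventually.of_forall b3)
    · intro x hx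
      rw [hgη0 x hx, norm_zero, Real.zero_rpow (by linarith), mul_zero]
  -- the equation
  rw [integral_add i1 i2] at hw
  have h1 : α * ∫ x, η x ^ m * (deriv Θ (u x) * ‖v x‖ ^ p) ∂μ ≤
      ∫ x, η x ^ m * deriv Θ (u x) * ⟪a x (v x), v x⟫ ∂μ := by
    rw [← integral_const_mul]
    apply integral_mono (i3.const_mul α) i2
    intro x
    have h2 := hop.ell x (v x)
    have h3 : 0 ≤ η x ^ m * deriv Θ (u x) :=
      mul_nonneg (pow_nonneg (hη1 x).1 m) (hΘ' _ (hs.mem x)).le
    calc α * (η x ^ m * (deriv Θ (u x) * ‖v x‖ ^ p))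
        = η x ^ m * deriv Θ (u x) * (α * ‖v x‖ ^ p) := by ring
      _ ≤ _ := mul_le_mul_of_nonneg_left h2 h3
  have h2 : -∫ x, Θ (u x) * ⟪a x (v x), ∇ (fun x => η x ^ m) x⟫ ∂μ ≤
      α / 2 * (∫ x, η x ^ m * (deriv Θ (u x) * ‖v x‖ ^ p) ∂μ) +
        α / 2 * (l ^ p * ∫ x, |Θ (u x)| ^ p * deriv Θ (u x) ^ (1 - p) * ‖∇ η x‖ ^ p ∂μ) := by
    rw [← integral_neg, ← integral_const_mul, ← integral_const_mul, ← integral_const_mul,
      ← integral_add (i3.const_mul _) ((i4.const_mul _).const_mul _)]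
    apply integral_mono i1.neg ((i3.const_mul _).add ((i4.const_mul _).const_mul _))
    intro x
    have h3 : |⟪a x (v x), ∇ (fun x => η x ^ m) x⟫| ≤
        β * ‖v x‖ ^ (p - 1) * (m * η x ^ (m - 1) * ‖∇ η x‖) := by
      refine (abs_real_inner_le_norm _ _).trans ?_
      rw [grad_pow hη, norm_smul, Real.norm_eq_abs,
        abs_of_nonneg (mul_nonneg hmr.le (pow_nonneg (hη1 x).1 _))]
      exact mul_le_mul_of_nonneg_right (hop.bdd x (v x))
        (mul_nonneg (mul_nonneg hmr.le (pow_nonneg (hη1 x).1 _)) (norm_nonneg _))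
    have h4 := young hp hα hβ hm1 hmp (hη1 x).1 (hη1 x).2 (norm_nonneg (v x))
      (abs_nonneg (Θ (u x))) (norm_nonneg (∇ η x)) (hΘ' _ (hs.mem x))
    refine le_trans ?_ h4
    calc -(Θ (u x) * ⟪a x (v x), ∇ (fun x => η x ^ m) x⟫)
        ≤ |Θ (u x) * ⟪a x (v x), ∇ (fun x => η x ^ m) x⟫| := neg_le_abs _
      _ = |Θ (u x)| * |⟪a x (v x), ∇ (fun x => η x ^ m) x⟫| := abs_mul _ _
      _ ≤ |Θ (u x)| * (β * ‖v x‖ ^ (p - 1) * (m * η x ^ (m - 1) * ‖∇ η x‖)) :=
        mul_le_mul_of_nonneg_left h3 (abs_nonneg _)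
      _ = _ := by ring
  set I := ∫ x, η x ^ m * (deriv Θ (u x) * ‖v x‖ ^ p) ∂μ
  set J := ∫ x, |Θ (u x)| ^ p * deriv Θ (u x) ^ (1 - p) * ‖∇ η x‖ ^ p ∂μ
  have h5 : α / 2 * I ≤ α / 2 * (l ^ p * J) := by linarith
  exact le_of_mul_le_mul_left h5 (by linarith)

end Pool.Agent.Lib.MP_abd978_an.H1
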